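import Pool.Agent.W622.ETC.Stm

set_option autoImplicit false

/-!
# ELT-A1: cones have codimension at least two
-/

namespace Pool.Agent.W179.ELT

open Pool.Agent.W622.ETC Module

theorem t_A1 (hRIG : S_RIG) (hST0 : S_ST0) : S_A1 := by
  intro V _ _ _ A M hMC hM
  obtain ⟨p, h3, hpM, hp0, hp⟩ := hM
  by_contra hcon
  have hfin : finrank (ZMod 2) (Dl V) = finrank (ZMod 2) V := finrank_Dl
  by_cases hT : M = ⊤
  · -- the whole space
    obtain ⟨x, hx⟩ : ∃ x : V, p x ≠ 0 := by
      by_contra h
      push Not at h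
      exact hp0 (LinearMap.ext h)
    have hx1 : p x = 1 := z_ne hx
    have hx0 : x ≠ 0 := by
      rintro rfl
      exact hx (map_zero p)
    apply hMC.nel
    refine hRIG V A x hMC.alt hMC.her hx0 ?_ (hMC.el _ (ann_ne_top hx0))
    intro f hf
    refine ⟨wd p f, hp f (by rw [hT]; exact Submodule.mem_top), ?_⟩
    rw [wd_apply, hx1, hf, one_smul, zero_smul, add_zero]
  · obtain ⟨b, hb, hMb⟩ := exists_ann hT
    have h1 : finrank (ZMod 2) (ann b) < finrank (ZMod 2) (Dl V) :=
      Submodule.finrank_lt (lt_top_iff_ne_top.2 (ann_ne_top hb)).ne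
    have h2 : M = ann b := by
      apply Submodule.eq_of_le_of_finrank_le hMb
      omega
    refine hST0 V A b p hMC hb hp0 ?_ ?_
    · have : p ∈ ann b := hMb hpM
      exact this
    · intro g hg
      apply hp
      rw [h2]
      exact hg

end Pool.Agent.W179.ELT
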